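import Pool.Agent.WAQ.StmtsT

/-! Squad WAQ, row NEX: there are points near the corner. -/

namespace Pool.Agent.WAQ.H69

open Classical Pool.Agent.WAQ

section

variable {F : Type} [NormedField F] (hu : ∀ x y : F, ‖x + y‖ ≤ max ‖x‖ ‖y‖)

include hu

theorem nex_norm {u : F} (h : ‖u - 1‖ < 1) : ‖u‖ = 1 := by
  have h1 : ‖u‖ ≤ 1 := by
    have h2 := hu (u - 1) 1
    rw [sub_add_cancel, norm_one] at h2
    exact h2.trans (max_le h.le le_rfl)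
  apply le_antisymm h1
  by_contra h3
  have h4 : ‖u‖ < 1 := lt_of_not_ge h3
  have h5 := hu u (-(u - 1))
  rw [norm_neg] at h5
  have h6 : u + -(u - 1) = 1 := by ring
  rw [h6, norm_one] at h5
  exact absurd (max_lt h4 h) (not_lt.2 h5)

theorem nex_mul {u v : F} {η : ℝ} (hη : η < 1) (h1 : ‖u - 1‖ ≤ η) (h2 : ‖v - 1‖ ≤ η) :
    ‖u * v - 1‖ ≤ η := by
  have e : u * v - 1 = (u - 1) * v + (v - 1) := by ring
  rw [e]
  refine (hu _ _).trans (max_le ?_ h2)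
  rw [norm_mul, nex_norm hu (h2.trans_lt hη), mul_one]
  exact h1

end

variable [Par]

theorem nex (gdf : GdfStmt) : NexStmt := by
  intro F _ ϖ hL r hr
  have hu := hL.ultra
  have hG : GoodF F := gdf F (Or.inl ⟨ϖ, hL⟩)
  obtain ⟨δ, hδ, hsq⟩ := hG.2.2 1 one_pos
  have hq1 : ‖am F ϖ‖ < 1 := (hL.lt_one ϖ).2 dvd_rfl
  have hq0 : 0 < ‖am F ϖ‖ := hL.uni
  obtain ⟨N, hN⟩ := exists_pow_lt_of_lt_one (lt_min hr (lt_min hδ one_pos)) hq1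
  obtain ⟨p, hp⟩ : ∃ p : F, p = am F ϖ ^ N := ⟨_, rfl⟩
  have hpn : ‖p‖ = ‖am F ϖ‖ ^ N := by rw [hp, norm_pow]
  have hpr : ‖p‖ < r := by
    rw [hpn]
    exact hN.trans_le (min_le_left _ _)
  have hpδ : ‖p‖ < δ := by
    rw [hpn]
    exact hN.trans_le ((min_le_right _ _).trans (min_le_left _ _))
  have hp1 : ‖p‖ < 1 := by
    rw [hpn]
    exact hN.trans_le ((min_le_right _ _).trans (min_le_right _ _))
  have hp0 : 0 < ‖p‖ := by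
    rw [hpn]
    exact pow_pos hq0 _
  have hpne : p ≠ 0 := norm_pos_iff.1 hp0
  have hpk : ∀ k : ℕ, ‖p ^ (k + 1)‖ ≤ ‖p‖ := by
    intro k
    rw [norm_pow, pow_succ]
    exact mul_le_of_le_one_left (norm_nonneg _) (pow_le_one₀ (norm_nonneg _) hp1.le)
  have hfac : ∀ (e : F) (k : ℕ), ‖e‖ = 1 → ‖(1 - e * p ^ (k + 1)) - 1‖ ≤ ‖p‖ := by
    intro e k he
    have e1 : (1 - e * p ^ (k + 1)) - 1 = -(e * p ^ (k + 1)) := by ring
    rw [e1, norm_neg, norm_mul, he, one_mul]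
    exact hpk k
  have ha := hL.norm_ea
  have hb := hL.norm_eb
  have f1 := hfac (ea F) 1 ha
  have f2 := hfac (eb F) 1 hb
  have f3 := hfac (ea F) 3 ha
  have f4 := hfac (eb F) 3 hb
  have h12 := nex_mul hu hp1 f1 f2
  have h34 := nex_mul hu hp1 f3 f4
  have hprod := nex_mul hu hp1 h12 h34
  obtain ⟨s, hs, hs1⟩ := hsq _ (hprod.trans_lt hpδ)
  have hsn : ‖s‖ = 1 := nex_norm hu hs1
  have hs0 : s ≠ 0 := by
    intro h
    rw [h, norm_zero] at hsn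
    exact zero_ne_one hsn
  have hc34 : ‖(1 - ea F * p ^ (3 + 1)) * (1 - eb F * p ^ (3 + 1))‖ = 1 :=
    nex_norm hu (h34.trans_lt hp1)
  have hc34' : (1 - ea F * p ^ (3 + 1)) * (1 - eb F * p ^ (3 + 1)) ≠ 0 := by
    intro h
    rw [h, norm_zero] at hc34
    exact zero_ne_one hc34
  refine ⟨((p ^ 2)⁻¹, (p ^ 4)⁻¹, (p ^ 9)⁻¹ * s), ⟨?_, ?_⟩, ?_, ?_, ?_⟩
  · show ((p ^ 9)⁻¹ * s) ^ 2 = cub ((p ^ 2)⁻¹) * cub ((p ^ 4)⁻¹)
    rw [mul_pow, hs]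
    unfold cub
    field_simp
    ring
  · exact mul_ne_zero (inv_ne_zero (pow_ne_zero _ hpne)) hs0
  · show 1 / r < ‖(p ^ 2)⁻¹‖
    rw [norm_inv, one_div]
    exact (inv_lt_inv₀ hr (norm_pos_iff.2 (pow_ne_zero _ hpne))).2 ((hpk 1).trans_lt hpr)
  · show 1 / r < ‖(p ^ 4)⁻¹‖
    rw [norm_inv, one_div]
    exact (inv_lt_inv₀ hr (norm_pos_iff.2 (pow_ne_zero _ hpne))).2 ((hpk 3).trans_lt hpr)
  · have e : mz ((p ^ 2)⁻¹, (p ^ 4)⁻¹, (p ^ 9)⁻¹ * s) =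
        p * s / ((1 - ea F * p ^ (3 + 1)) * (1 - eb F * p ^ (3 + 1))) := by
      show (p ^ 9)⁻¹ * s / ((p ^ 2)⁻¹ * (((p ^ 4)⁻¹ - ea F) * ((p ^ 4)⁻¹ - eb F))) = _
      have e1 : (p ^ 2)⁻¹ * (((p ^ 4)⁻¹ - ea F) * ((p ^ 4)⁻¹ - eb F)) =
          (p ^ 10)⁻¹ * ((1 - ea F * p ^ (3 + 1)) * (1 - eb F * p ^ (3 + 1))) := by
        field_simp
        ring
      rw [e1, div_mul_eq_div_div]
      congr 1
      field_simp
    rw [e, sub_zero, norm_div, hc34, norm_mul, hsn, mul_one, div_one]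
    exact hpr

end Pool.Agent.WAQ.H69
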